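import Pool.Agent.H68.Gp2

set_option autoImplicit false

namespace Pool.Agent.Results.MP_1ce9e9_gt.OpenSet

open Pool.Agent.H68.Gn Complex Metric

/-- A non-empty open set of 8-tuples of distinct plane points that are unboundedly fillable. -/
theorem result :
    ∃ O : Set (Fin 8 → ℂ), IsOpen O ∧ O.Nonempty ∧ ∀ x ∈ O, Function.Injective x ∧
      ∀ N : ℕ, ∃ V : Finset ℂ, ∃ G : SimpleGraph ℂ,
        (∀ a b : ℂ, G.Adj a b → a ∈ V ∧ b ∈ V) ∧
        (∀ a b c d : ℂ, G.Adj a b → G.Adj c d →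
            ¬ ((a = c ∧ b = d) ∨ (a = d ∧ b = c)) →
            ∀ y ∈ segment ℝ a b ∩ segment ℝ c d, (y = a ∨ y = b) ∧ (y = c ∨ y = d)) ∧
        (∀ a b v : ℂ, G.Adj a b → v ∈ V → v ∈ segment ℝ a b → v = a ∨ v = b) ∧
        (∀ i, x i ∈ V) ∧
        (∀ v ∈ V, v ∈ Set.range x ↔
            ¬ (3 ≤ (G.neighborSet v).ncard ∧
               (∑ᶠ w ∈ G.neighborSet v, (w - v) / ((‖w - v‖ : ℝ) : ℂ)) = 0)) ∧
        N < Set.ncard {v : ℂ | v ∈ V ∧ 3 ≤ (G.neighborSet v).ncard ∧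
               (∑ᶠ w ∈ G.neighborSet v, (w - v) / ((‖w - v‖ : ℝ) : ℂ)) = 0} := by
  classical
  obtain ⟨η, δ, h0, h1, d0, d1, hch⟩ := chainP
  let c : Fin 8 → ℂ := ![⟨1, 9 / 10 * η⟩, R (-1) ⟨1, -(9 / 10 * η)⟩, sp 0, sp 1, sp 2,
    R (-1) (sp 0), R (-1) (sp 1), R (-1) (sp 2)]
  refine ⟨ball c δ, isOpen_ball, nonempty_ball.2 d0, fun x hx => ?_⟩
  have hx' : ∀ i, ‖x i - c i‖ < δ := fun i => by
    rw [← dist_eq_norm]; exact (dist_pi_lt_iff d0).1 hx i
  have RR : ∀ z, R (-1) (R (-1) z) = z := fun z => by apply Complex.ext <;> simp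
  have R1 : ∀ z, R 1 z = z := fun z => by apply Complex.ext <;> simp
  have Rn : ∀ z w, ‖R (-1) z - w‖ = ‖z - R (-1) w‖ := fun z w => by
    rw [norm_eq_sqrt_sq_add_sq, norm_eq_sqrt_sq_add_sq]; simp; congr 1; ring
  have s := sb
  refine ⟨fun i j e => ?_, fun N => ?_⟩
  · let w : Fin 8 → ℤ × ℤ := ![(100, 0), (-100, 0), (200, 0), (150, 87), (150, -87), (-200, 0),
      (-150, 87), (-150, -87)]
    have a : ∀ i, ap 3 (x i) (w i) := fun i => by
      have a1 := abs_le.1 ((abs_re_le_norm _).trans (hx' i).le)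
      have a2 := abs_le.1 ((abs_im_le_norm _).trans (hx' i).le)
      simp only [ap, abs_le]
      fin_cases i <;> simp [c, w, sp] at a1 a2 ⊢ <;> refine ⟨⟨?_, ?_⟩, ?_, ?_⟩ <;>
        linarith [a1.1, a1.2, a2.1, a2.2, s.1, s.2]
    have b := ap_sub (a i) (a j)
    rw [e, sub_self] at b
    have k : ∀ i j, |(w i - w j).1| ≤ 6 → |(w i - w j).2| ≤ 6 → i = j := by decide
    refine k i j ?_ ?_
    · have := b.1; rw [zero_re, mul_zero, zero_sub, abs_neg] at this; exact_mod_cast this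
    · have := b.2; rw [zero_im, mul_zero, zero_sub, abs_neg] at this; exact_mod_cast this
  let σ : ℕ → Fin 3 → ℂ := fun k => if sg k = 1 then ![x 2, x 3, x 4] else
    ![R (-1) (x 5), R (-1) (x 6), R (-1) (x 7)]
  have hσ1 : ∀ k j, ‖σ k j - sp j‖ < δ := fun k j => by
    simp only [σ]; split_ifs <;> fin_cases j
    exacts [hx' 2, hx' 3, hx' 4, (Rn _ _).trans_lt (hx' 5), (Rn _ _).trans_lt (hx' 6),
      (Rn _ _).trans_lt (hx' 7)]
  have hσ : ∀ k j, ap 3 (σ k j) (tw j) := fun k j => by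
    have a1 := abs_le.1 ((abs_re_le_norm _).trans (hσ1 k j).le)
    have a2 := abs_le.1 ((abs_im_le_norm _).trans (hσ1 k j).le)
    simp only [ap, abs_le]
    generalize σ k = z at *
    fin_cases j <;> simp [tw, sp] at a1 a2 ⊢ <;> refine ⟨⟨?_, ?_⟩, ?_, ?_⟩ <;>
      linarith [a1.1, a1.2, a2.1, a2.2, s.1, s.2]
  obtain ⟨p, p0, p1, pb, pG, pc⟩ := hch σ (x 0) (R (-1) (x 1))
    (fun k => (dist_pi_lt_iff d0).2 fun j => by rw [dist_eq_norm]; exact hσ1 k j)
    (fun k => by simp only [σ, sg_succ, neg_neg]) (hx' 0).le ((Rn _ _).trans_le (hx' 1).le)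
    (2 * N + 2) (by omega)
  have hp : ∀ k, |(p k).re - 1| ≤ 1 / 100 ∧ |(p k).im| ≤ 1 / 100 := fun k => by
    have a := Complex.abs_re_le_norm (p k - 1)
    have b := Complex.abs_im_le_norm (p k - 1)
    have c := pb k
    simp only [Complex.sub_re, Complex.sub_im, Complex.one_re, Complex.one_im, sub_zero] at a b
    constructor <;> linarith
  have hc := coneP p _ pc
  obtain ⟨V, G, c1, c2, c3, c4, c5, c6, c7⟩ := netP p σ _ hp hσ hc
  have q0 : x 0 = qq p 0 := by rw [qq, sg, pow_zero, R1, p0]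
  have q1 : x 1 = qq p (2 * N + 2 + 1) := by
    rw [qq, p1, sg_succ, sg_succ, sg_succ, sg, pow_mul]; simp [RR]
  have g0 : sg 0 = 1 := by simp [sg]
  have g1 : sg 1 = -1 := by simp [sg]
  have rg : ∀ i, x i = qq p 0 ∨ x i = qq p (2 * N + 2 + 1) ∨
      ∃ k ≤ 1, ∃ j, x i = R (sg k) (σ k j) := fun i => by
    have n1 : ¬ ((-1 : ℝ) = 1) := by norm_num
    fin_cases i
    · exact Or.inl q0
    · exact Or.inr (Or.inl q1)
    · exact Or.inr (Or.inr ⟨0, by omega, 0, by simp [σ, g0, R1]⟩)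
    · exact Or.inr (Or.inr ⟨0, by omega, 1, by simp [σ, g0, R1]⟩)
    · exact Or.inr (Or.inr ⟨0, by omega, 2, by simp [σ, g0, R1]⟩)
    · exact Or.inr (Or.inr ⟨1, by omega, 0, by simp [σ, g1, RR, n1]⟩)
    · exact Or.inr (Or.inr ⟨1, by omega, 1, by simp [σ, g1, RR, n1]⟩)
    · exact Or.inr (Or.inr ⟨1, by omega, 2, by simp [σ, g1, RR, n1]⟩)
  have rg' : ∀ k j, R (sg k) (σ k j) ∈ Set.range x := fun k j => by
    have n1 : ¬ ((-1 : ℝ) = 1) := by norm_num
    rcases sg_or k with e | e <;> fin_cases j <;> simp [σ, e, R1, RR, n1]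
  have mid : ∀ k, k + 1 ≤ 2 * N + 2 → qq p (k + 1) ∈ V ∧
      3 ≤ (G.neighborSet (qq p (k + 1))).ncard ∧ totP p σ (2 * N + 2) (qq p (k + 1)) = 0 :=
    fun k hk => ⟨(c4 _ hk none).1, c7 _ hk, tot_midP p σ _ hp hσ hc k hk (pG k hk)⟩
  refine ⟨V, G, c1, c2, c3, fun i => ?_, fun v hv => ⟨fun h h' => ?_, fun h => ?_⟩, ?_⟩
  · rcases rg i with e | e | ⟨k, hk, j, e⟩ <;> rw [e]
    · exact (c4 0 (by omega) none).1
    · exact (c4 _ le_rfl none).2
    · exact (c4 k (by omega) (some j)).2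
  · have := h'.2
    rw [c5 v hv] at this
    obtain ⟨i, rfl⟩ := h
    rcases rg i with e | e | ⟨k, hk, j, e⟩ <;> rw [e] at this
    · exact tot_zeroP p σ _ hp hσ hc this
    · exact tot_lastP p σ _ hp hσ hc this
    · exact tot_spP p σ _ hp hσ _ (by omega) _ this
  · by_contra hn
    rw [c5 v hv] at h
    have key : ∀ k, k ≤ 2 * N + 2 + 1 → qq p k ≠ v := by
      rintro (_ | k) hk rfl
      · exact hn ⟨0, q0⟩
      · rcases hk.eq_or_lt with e | e
        · exact hn ⟨1, by rw [e]; exact q1⟩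
        · exact h (mid k (by omega)).2
    refine h (c6 v hv fun k hk o => ⟨key k (by omega), ?_⟩)
    rcases o with _ | j
    · exact key (k + 1) (by omega)
    · rintro rfl
      exact hn (rg' k j)
  · have hi : Set.InjOn (fun k => qq p (k + 1)) (Finset.range (N + 1) : Set ℕ) := by
      intro i hi j hj e
      simp only [Finset.coe_range, Set.mem_Iio] at hi hj
      have := qinjP p _ hp hc _ _ (by omega) (by omega) e
      omega
    refine lt_of_lt_of_le (b := ((fun k => qq p (k + 1)) '' (Finset.range (N + 1) : Set ℕ)).ncard)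
      (by rw [hi.ncard_image, Set.ncard_coe_finset, Finset.card_range]; omega)
      (Set.ncard_le_ncard ?_ (V.finite_toSet.subset fun v hv => hv.1))
    rintro _ ⟨k, hk, rfl⟩
    simp only [Finset.coe_range, Set.mem_Iio] at hk
    obtain ⟨a, b, c⟩ := mid k (by omega)
    exact ⟨a, b, (c5 _ a).trans c⟩

end Pool.Agent.Results.MP_1ce9e9_gt.OpenSet
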